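import Pool.Agent.W223.PL.Stms

set_option autoImplicit false

namespace Pool.Agent.Q164.PL

open Polynomial Pool.Agent.W223.HZ Pool.Agent.W223.PL

theorem sylvester_entry {A B : ℤ[X]} {H : ℝ} (h0 : 0 ≤ H) (hA : ∀ k, |(A.coeff k : ℝ)| ≤ H)
    (hB : ∀ k, |(B.coeff k : ℝ)| ≤ H) (m n : ℕ) (i j : Fin (m + n)) :
    |((sylvester A B m n i j : ℤ) : ℝ)| ≤ H := by
  unfold sylvester
  rw [Matrix.of_apply]
  refine Fin.addCases (fun j₁ => ?_) (fun j₁ => ?_) j
  · rw [Fin.addCases_left]
    split_ifs
    · exact hB _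
    · simpa using h0
  · rw [Fin.addCases_right]
    split_ifs
    · exact hA _
    · simpa using h0

theorem resultant_le {A B : ℤ[X]} {H : ℝ} (h0 : 0 ≤ H) (hA : ∀ k, |(A.coeff k : ℝ)| ≤ H)
    (hB : ∀ k, |(B.coeff k : ℝ)| ≤ H) (m n : ℕ) :
    |((resultant A B m n : ℤ) : ℝ)| ≤ (m + n).factorial * H ^ (m + n) := by
  unfold resultant
  have h1 : (((sylvester A B m n).det : ℤ) : ℝ) =
      ((sylvester A B m n).map (Int.castRingHom ℝ)).det := by
    rw [← RingHom.mapMatrix_apply, ← RingHom.map_det]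
    rfl
  rw [h1]
  have h2 := Matrix.det_le (A := (sylvester A B m n).map (Int.castRingHom ℝ))
    (abv := AbsoluteValue.abs) (x := H) (fun i j => sylvester_entry h0 hA hB m n i j)
  rw [Fintype.card_fin, nsmul_eq_mul] at h2
  exact h2

theorem bez : StmtBEZ := by
  intro n A B H hH hAn hBn hA hB hco
  have h0 : (0 : ℝ) ≤ H := by linarith
  have hx1 : 1 ≤ (2 * (n : ℝ) + 2) * H := by
    have : (0 : ℝ) ≤ n := n.cast_nonneg
    nlinarith
  have hHx : H ≤ (2 * (n : ℝ) + 2) * H := by
    have : (0 : ℝ) ≤ n := n.cast_nonneg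
    nlinarith
  have hpow1 : (2 * (n : ℝ) + 2) * H ≤ ((2 * (n : ℝ) + 2) * H) ^ (2 * n + 2) :=
    le_self_pow₀ hx1 (by omega)
  by_cases hdeg : A.natDegree = 0 ∧ B.natDegree = 0
  · obtain ⟨h1, h2⟩ := hdeg
    rw [Polynomial.natDegree_eq_zero] at h1 h2
    obtain ⟨a, rfl⟩ := h1
    obtain ⟨b, rfl⟩ := h2
    by_cases ha : a = 0
    · have hb : b ≠ 0 := by
        rintro rfl
        subst ha
        simp only [map_zero, Polynomial.map_zero] at hco
        exact not_isCoprime_zero_zero hco
      refine ⟨0, 1, b, hb, by simp, ?_⟩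
      have := hB 0
      simp only [coeff_C_zero] at this
      linarith
    · refine ⟨1, 0, a, ha, by simp, ?_⟩
      have := hA 0
      simp only [coeff_C_zero] at this
      linarith
  · obtain ⟨p, q, _, _, hpq⟩ := exists_mul_add_mul_eq_C_resultant A B (m := A.natDegree)
      (n := B.natDegree) le_rfl le_rfl (by tauto)
    refine ⟨p, q, resultant A B A.natDegree B.natDegree, ?_, ?_, ?_⟩
    · intro hz
      have h1 := resultant_map_map A B A.natDegree B.natDegree (Int.castRingHom ℚ)
      rw [hz, map_zero] at h1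
      have h2 := resultant_ne_zero (A.map (Int.castRingHom ℚ)) (B.map (Int.castRingHom ℚ)) hco
      rw [natDegree_map_eq_of_injective (RingHom.injective_int _),
        natDegree_map_eq_of_injective (RingHom.injective_int _)] at h2
      exact h2 h1
    · rw [← hpq]; ring
    · refine (resultant_le h0 hA hB _ _).trans ?_
      have hN : A.natDegree + B.natDegree ≤ 2 * n + 2 := by omega
      have h1 : ((A.natDegree + B.natDegree).factorial : ℝ) ≤
          (2 * (n : ℝ) + 2) ^ (A.natDegree + B.natDegree) := by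
        have h2 : (A.natDegree + B.natDegree).factorial ≤
            (A.natDegree + B.natDegree) ^ (A.natDegree + B.natDegree) := Nat.factorial_le_pow _
        have h3 : (A.natDegree + B.natDegree) ^ (A.natDegree + B.natDegree) ≤
            (2 * n + 2) ^ (A.natDegree + B.natDegree) := Nat.pow_le_pow_left hN _
        exact_mod_cast h2.trans h3
      calc ((A.natDegree + B.natDegree).factorial : ℝ) * H ^ (A.natDegree + B.natDegree)
          ≤ (2 * (n : ℝ) + 2) ^ (A.natDegree + B.natDegree) * H ^ (A.natDegree + B.natDegree) :=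
            mul_le_mul_of_nonneg_right h1 (pow_nonneg h0 _)
        _ = ((2 * (n : ℝ) + 2) * H) ^ (A.natDegree + B.natDegree) := by rw [mul_pow]
        _ ≤ ((2 * (n : ℝ) + 2) * H) ^ (2 * n + 2) := pow_le_pow_right₀ hx1 hN

end Pool.Agent.Q164.PL
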