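import Pool.Agent.W223.PL.Stms

set_option autoImplicit false

/-!
# PFIN: all `d ≤ X`
-/

namespace Pool.Agent.Q164.PL

open Polynomial Pool.Agent.W223.HZ Pool.Agent.W223.PL

/-- cardinality of a finite union of sets of bounded cardinality -/
lemma pf_union {ι α : Type} (s : Finset ι) (A : ι → Set α) (B : ℝ)
    (hfin : ∀ j ∈ s, (A j).Finite) (h : ∀ j ∈ s, ((A j).ncard : ℝ) ≤ B) :
    (⋃ j ∈ s, A j).Finite ∧ ((⋃ j ∈ s, A j).ncard : ℝ) ≤ s.card * B := by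
  classical
  induction s using Finset.induction_on with
  | empty => simp
  | insert a s ha ih =>
    obtain ⟨h1, h2⟩ := ih (fun j hj => hfin j (Finset.mem_insert_of_mem hj))
      (fun j hj => h j (Finset.mem_insert_of_mem hj))
    rw [Finset.set_biUnion_insert]
    refine ⟨(hfin a (Finset.mem_insert_self _ _)).union h1, ?_⟩
    have h3 : ((A a ∪ ⋃ j ∈ s, A j).ncard : ℝ) ≤ (A a).ncard + (⋃ j ∈ s, A j).ncard := by
      exact_mod_cast Set.ncard_union_le _ _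
    have h4 := h a (Finset.mem_insert_self _ _)
    rw [Finset.card_insert_of_notMem ha]
    push_cast
    linarith

lemma pf_finite (c c' : ℝ) : {d : ℤ | c ≤ (d : ℝ) ∧ (d : ℝ) ≤ c'}.Finite := by
  refine (Set.finite_Icc ⌈c⌉ ⌊c'⌋).subset ?_
  rintro d ⟨h1, h2⟩
  exact ⟨Int.ceil_le.2 h1, Int.le_floor.2 h2⟩

lemma pf_card_le {Y : ℝ} (hY : 0 ≤ Y) (S : Set ℤ) (hS : ∀ d ∈ S, 1 ≤ d ∧ (d : ℝ) ≤ Y) :
    (S.ncard : ℝ) ≤ Y := by
  have h1 : S ⊆ Set.Icc 1 ⌊Y⌋ := fun d hd => ⟨(hS d hd).1, Int.le_floor.2 (hS d hd).2⟩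
  have h2 : S.ncard ≤ (Set.Icc (1 : ℤ) ⌊Y⌋).ncard := Set.ncard_le_ncard h1 (Set.finite_Icc _ _)
  have h3 : (Set.Icc (1 : ℤ) ⌊Y⌋).ncard = (⌊Y⌋ + 1 - 1).toNat := by
    rw [← Finset.coe_Icc, Set.ncard_coe_finset, Int.card_Icc]
  have h4 : (0 : ℤ) ≤ ⌊Y⌋ := Int.floor_nonneg.2 hY
  have h5 : (((⌊Y⌋ + 1 - 1).toNat : ℕ) : ℤ) = ⌊Y⌋ := by
    rw [Int.toNat_of_nonneg (by linarith)]
    ring
  have h6 : (((⌊Y⌋ + 1 - 1).toNat : ℕ) : ℝ) = ⌊Y⌋ := by exact_mod_cast h5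
  have h7 : (S.ncard : ℝ) ≤ (((⌊Y⌋ + 1 - 1).toNat : ℕ) : ℝ) := by
    rw [← h3]
    exact_mod_cast h2
  rw [h6] at h7
  exact h7.trans (Int.floor_le Y)

/-- division by the common divisor -/
lemma pf_gcd (d x y : ℤ) (hy : 1 ≤ y) (h : x ^ 2 ≠ d * y ^ 2) :
    ∃ x' y' : ℤ, 0 ≤ x' ∧ 1 ≤ y' ∧ y' ≤ y ∧ IsCoprime x' y' ∧ x' ^ 2 - d * y' ^ 2 ≠ 0 ∧
      |x' ^ 2 - d * y' ^ 2| ≤ |x ^ 2 - d * y ^ 2| := by
  have hg : 0 < Int.gcd x y := by
    rw [Int.gcd_pos_iff]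
    right
    omega
  obtain ⟨x₁, y₁, h1, h2, h3⟩ := Int.exists_gcd_one hg
  set g : ℤ := (Int.gcd x y : ℤ) with hgd
  have hg1 : 1 ≤ g := by
    have : (0 : ℤ) < g := by
      rw [hgd]
      exact_mod_cast hg
    omega
  have hy1 : 1 ≤ y₁ := by
    by_contra hc
    push Not at hc
    have : y₁ ≤ 0 := by omega
    nlinarith
  have he : x ^ 2 - d * y ^ 2 = g ^ 2 * (x₁ ^ 2 - d * y₁ ^ 2) := by
    rw [h2, h3]
    ring
  have hsq : |x₁| ^ 2 = x₁ ^ 2 := sq_abs x₁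
  refine ⟨|x₁|, y₁, abs_nonneg _, hy1, by nlinarith, ?_, ?_, ?_⟩
  · have hc1 : IsCoprime x₁ y₁ := Int.isCoprime_iff_gcd_eq_one.2 h1
    rcases abs_choice x₁ with h5 | h5
    · rw [h5]
      exact hc1
    · rw [h5]
      exact hc1.neg_left
  · rw [hsq]
    intro h0
    apply h
    have : x ^ 2 - d * y ^ 2 = 0 := by rw [he, h0, mul_zero]
    linarith
  · rw [hsq, he, abs_mul]
    have h4 : 1 ≤ |g ^ 2| := by
      rw [abs_of_nonneg (by positivity)]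
      nlinarith
    nlinarith [abs_nonneg (x₁ ^ 2 - d * y₁ ^ 2)]

/-- the points of one interval, one range of `y` and one value `N` -/
def PfS (A : ℕ) (X K Y L : ℝ) (t : ℤ × ℕ × ℕ) : Set ℤ :=
  {d : ℤ | (t.1 ≠ 0 ∧ |(t.1 : ℝ)| ≤ K ∧ (2 : ℝ) ^ t.2.1 ≤ X ^ A ∧ Y + t.2.2 * L ≤ X) ∧
    Y + t.2.2 * L ≤ d ∧ (d : ℝ) ≤ Y + t.2.2 * L + L ∧
    ∃ x y : ℤ, 0 ≤ x ∧ (2 : ℝ) ^ t.2.1 ≤ y ∧ (y : ℝ) < 2 * 2 ^ t.2.1 ∧ IsCoprime x y ∧
      x ^ 2 - d * y ^ 2 = t.1}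

lemma pf_fin (A : ℕ) (X K Y L : ℝ) (t : ℤ × ℕ × ℕ) : (PfS A X K Y L t).Finite :=
  (pf_finite (Y + t.2.2 * L) (Y + t.2.2 * L + L)).subset fun _ hd => ⟨hd.2.1, hd.2.2.1⟩

lemma pf_core (A m : ℕ) (hm : 1 ≤ m) (D₀ Cc : ℝ) (hD₀ : 1 ≤ D₀) (hCc : 1 ≤ Cc)
    (hPI : ∀ (D V : ℝ) (N : ℤ) (𝒟 : Finset ℤ), D₀ ≤ D → 1 ≤ V → V ≤ D ^ (2 * A) → N ≠ 0 →
      |(N : ℝ)| ≤ D ^ ((1 : ℝ) / 8) → (∀ d ∈ 𝒟, D ≤ d ∧ (d : ℝ) ≤ 2 * D) →
      (∀ d ∈ 𝒟, ∀ d' ∈ 𝒟, |(d : ℝ) - d'| ≤ D ^ (1 / (8 * (m : ℝ)))) →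
      (∀ d ∈ 𝒟, ∃ x y : ℤ, 0 ≤ x ∧ V ≤ y ∧ (y : ℝ) < 2 * V ∧ IsCoprime x y ∧
        x ^ 2 - d * y ^ 2 = N) →
      (𝒟.card : ℝ) ≤ Cc * D ^ (1 / (16 * (m : ℝ)) + 1 / (128 * m)))
    (X : ℝ) (hX : D₀ ^ 2 ≤ X) :
    ({d : ℤ | 1 ≤ d ∧ (d : ℝ) ≤ X ∧ ∃ x y : ℤ, 1 ≤ y ∧ (y : ℝ) ≤ X ^ A ∧ x ^ 2 ≠ d * y ^ 2 ∧
      |((x ^ 2 - d * y ^ 2 : ℤ) : ℝ)| ≤ X ^ (1 / (64 * (m : ℝ)))}.ncard : ℝ) ≤
      (1 + 6 * (512 * A * m + 1) * Cc) * X ^ (1 - 1 / (32 * (m : ℝ))) := by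
  classical
  have hX1 : 1 ≤ X := le_trans (by nlinarith) hX
  have hX0 : 0 < X := by linarith
  have hmR : (1 : ℝ) ≤ m := by exact_mod_cast hm
  have hm0 : (0 : ℝ) < m := by linarith
  set K := X ^ (1 / (64 * (m : ℝ))) with hK
  set Y := X ^ (1 - 1 / (32 * (m : ℝ))) with hY
  set L := Y ^ (1 / (8 * (m : ℝ))) with hL
  have hK1 : 1 ≤ K := Real.one_le_rpow hX1 (by positivity)
  have h32 : 1 / (32 * (m : ℝ)) ≤ 1 / 32 :=
    one_div_le_one_div_of_le (by norm_num) (by linarith)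
  have hYs : √X ≤ Y := by
    rw [Real.sqrt_eq_rpow]
    exact Real.rpow_le_rpow_of_exponent_le hX1 (by linarith)
  have hDs : D₀ ≤ √X := Real.le_sqrt_of_sq_le hX
  have hYD : D₀ ≤ Y := hDs.trans hYs
  have hY1 : 1 ≤ Y := hD₀.trans hYD
  have hY0 : 0 < Y := by linarith
  have hYX : Y ≤ X := by
    calc Y ≤ X ^ (1 : ℝ) := Real.rpow_le_rpow_of_exponent_le hX1 (by
          have : 0 < 1 / (32 * (m : ℝ)) := by positivity
          linarith)
      _ = X := Real.rpow_one X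
  have hL1 : 1 ≤ L := Real.one_le_rpow hY1 (by positivity)
  have hL0 : 0 < L := by linarith
  have hLY : L ≤ Y := by
    calc L ≤ Y ^ (1 : ℝ) := Real.rpow_le_rpow_of_exponent_le hY1 (by
          rw [div_le_one (by positivity)]
          linarith)
      _ = Y := Real.rpow_one Y
  -- the bound for one piece
  set Bd := Cc * X ^ (1 / (16 * (m : ℝ)) + 1 / (128 * m)) with hBd
  have hBd0 : 0 ≤ Bd := by positivity
  have hpiece : ∀ t : ℤ × ℕ × ℕ, ((PfS A X K Y L t).ncard : ℝ) ≤ Bd := by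
    intro t
    by_cases hc : t.1 ≠ 0 ∧ |(t.1 : ℝ)| ≤ K ∧ (2 : ℝ) ^ t.2.1 ≤ X ^ A ∧ Y + t.2.2 * L ≤ X
    · obtain ⟨hc1, hc2, hc3, hc4⟩ := hc
      set a := Y + t.2.2 * L with ha
      have haY : Y ≤ a := by
        have : (0 : ℝ) ≤ t.2.2 * L := by positivity
        linarith
      have ha1 : 1 ≤ a := hY1.trans haY
      have ha0 : 0 < a := by linarith
      have haX : √X ≤ a := hYs.trans haY
      have haX2 : X ≤ a ^ 2 := by
        have h1 : √X ^ 2 ≤ a ^ 2 := pow_le_pow_left₀ (Real.sqrt_nonneg _) haX 2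
        rwa [Real.sq_sqrt hX0.le] at h1
      have hfin := pf_fin A X K Y L t
      have h1 := hPI a (2 ^ t.2.1) t.1 hfin.toFinset (hYD.trans haY)
        (one_le_pow₀ (by norm_num)) (by
          rw [pow_mul]
          exact hc3.trans (pow_le_pow_left₀ hX0.le haX2 A)) hc1 (by
          refine hc2.trans ?_
          calc K ≤ X ^ ((1 : ℝ) / 2 * (1 / 8)) := by
                apply Real.rpow_le_rpow_of_exponent_le hX1
                rw [div_le_iff₀ (by positivity)]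
                linarith
            _ = (X ^ ((1 : ℝ) / 2)) ^ ((1 : ℝ) / 8) := Real.rpow_mul hX0.le _ _
            _ ≤ a ^ ((1 : ℝ) / 8) := by
                rw [← Real.sqrt_eq_rpow]
                exact Real.rpow_le_rpow (Real.sqrt_nonneg _) haX (by norm_num))
        (by
          intro d hd
          rw [Set.Finite.mem_toFinset] at hd
          refine ⟨hd.2.1, hd.2.2.1.trans ?_⟩
          rw [← ha]
          linarith)
        (by
          intro d hd d' hd'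
          rw [Set.Finite.mem_toFinset] at hd hd'
          have h2 : L ≤ a ^ (1 / (8 * (m : ℝ))) := Real.rpow_le_rpow hY0.le haY (by positivity)
          refine le_trans ?_ h2
          have e1 := hd.2.1
          have e2 := hd.2.2.1
          have e3 := hd'.2.1
          have e4 := hd'.2.2.1
          rw [abs_le]
          constructor <;> linarith)
        (by
          intro d hd
          rw [Set.Finite.mem_toFinset] at hd
          exact hd.2.2.2)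
      rw [← Set.ncard_eq_toFinset_card _ hfin] at h1
      refine h1.trans ?_
      rw [hBd]
      have h3 : a ^ (1 / (16 * (m : ℝ)) + 1 / (128 * m)) ≤
          X ^ (1 / (16 * (m : ℝ)) + 1 / (128 * m)) :=
        Real.rpow_le_rpow ha0.le hc4 (by positivity)
      exact mul_le_mul_of_nonneg_left h3 (by linarith)
    · have he : PfS A X K Y L t = ∅ := Set.eq_empty_of_forall_notMem fun k hk => hc hk.1
      rw [he, Set.ncard_empty]
      push_cast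
      exact hBd0
  -- the index set
  set I := ⌊(A : ℝ) * Real.log X / Real.log 2⌋₊ with hI
  set J := ⌊(X - Y) / L⌋₊ with hJ
  set idx : Finset (ℤ × ℕ × ℕ) :=
    Finset.Icc (-⌊K⌋) ⌊K⌋ ×ˢ (Finset.range (I + 1) ×ˢ Finset.range (J + 1)) with hidx
  obtain ⟨hUf, hUc⟩ := pf_union idx (PfS A X K Y L) Bd (fun t _ => pf_fin A X K Y L t)
    (fun t _ => hpiece t)
  set U := ⋃ t ∈ idx, PfS A X K Y L t with hU
  set S0 : Set ℤ := {d : ℤ | 1 ≤ d ∧ (d : ℝ) ≤ Y} with hS0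
  have hS0f : S0.Finite := (pf_finite 1 Y).subset fun d hd => ⟨by exact_mod_cast hd.1, hd.2⟩
  have hlog2 : 0 < Real.log 2 := Real.log_pos (by norm_num)
  have hsub : {d : ℤ | 1 ≤ d ∧ (d : ℝ) ≤ X ∧ ∃ x y : ℤ, 1 ≤ y ∧ (y : ℝ) ≤ X ^ A ∧
      x ^ 2 ≠ d * y ^ 2 ∧ |((x ^ 2 - d * y ^ 2 : ℤ) : ℝ)| ≤ K} ⊆ S0 ∪ U := by
    rintro d ⟨hd1, hdX, x, y, hy1, hyX, hne, hN⟩
    by_cases hdY : (d : ℝ) ≤ Y
    · exact Or.inl ⟨hd1, hdY⟩
    · right
      push Not at hdY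
      obtain ⟨x', y', hx0, hy'1, hy'y, hcop, hN0, hNle⟩ := pf_gcd d x y hy1 hne
      set N := x' ^ 2 - d * y' ^ 2 with hNdef
      have hNK : |(N : ℝ)| ≤ K := by
        have h1 : |(N : ℝ)| ≤ |((x ^ 2 - d * y ^ 2 : ℤ) : ℝ)| := by exact_mod_cast hNle
        exact h1.trans hN
      have hy'0 : y'.toNat ≠ 0 := by omega
      have hcast : ((y'.toNat : ℕ) : ℤ) = y' := Int.toNat_of_nonneg (by omega)
      have hcastR : ((y'.toNat : ℕ) : ℝ) = (y' : ℝ) := by exact_mod_cast congrArg (Int.cast : ℤ → ℝ) hcast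
      set i := Nat.log 2 y'.toNat with hi
      have hi1 : (2 : ℝ) ^ i ≤ y' := by
        rw [← hcastR]
        exact_mod_cast Nat.pow_log_le_self 2 hy'0
      have hi2 : (y' : ℝ) < 2 * 2 ^ i := by
        have h1 : y'.toNat < 2 ^ (i + 1) := Nat.lt_pow_succ_log_self (by norm_num) _
        rw [← hcastR]
        have h2 : ((y'.toNat : ℕ) : ℝ) < (2 : ℝ) ^ (i + 1) := by exact_mod_cast h1
        rw [pow_succ] at h2
        linarith
      have hy'X : (y' : ℝ) ≤ X ^ A := by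
        have : (y' : ℝ) ≤ y := by exact_mod_cast hy'y
        exact this.trans hyX
      have hi3 : (2 : ℝ) ^ i ≤ X ^ A := hi1.trans hy'X
      have hiI : i ≤ I := by
        apply Nat.le_floor
        rw [le_div_iff₀ hlog2]
        have h1 : Real.log ((2 : ℝ) ^ i) ≤ Real.log (X ^ A) := Real.log_le_log (by positivity) hi3
        rwa [Real.log_pow, Real.log_pow] at h1
      set k := ⌊((d : ℝ) - Y) / L⌋₊ with hk
      have hkJ : k ≤ J := by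
        apply Nat.floor_le_floor
        exact div_le_div_of_nonneg_right (by linarith) hL0.le
      have hk1 : (k : ℝ) * L ≤ d - Y := by
        rw [← le_div_iff₀ hL0]
        exact Nat.floor_le (div_nonneg (by linarith) hL0.le)
      have hk2 : (d : ℝ) - Y < (k + 1) * L := by
        rw [← div_lt_iff₀ hL0]
        exact Nat.lt_floor_add_one _
      have hmem : (N, i, k) ∈ idx := by
        rw [hidx, Finset.mem_product, Finset.mem_product]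
        refine ⟨?_, Finset.mem_range.2 (Nat.lt_succ_of_le hiI),
          Finset.mem_range.2 (Nat.lt_succ_of_le hkJ)⟩
        rw [Finset.mem_Icc]
        rw [abs_le] at hNK
        constructor
        · have : -N ≤ ⌊K⌋ := Int.le_floor.2 (by push_cast; linarith)
          show -⌊K⌋ ≤ N
          linarith
        · exact Int.le_floor.2 hNK.2
      rw [hU]
      refine Set.mem_biUnion hmem ?_
      refine ⟨⟨hN0, hNK, hi3, ?_⟩, ?_, ?_, x', y', hx0, hi1, hi2, hcop, rfl⟩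
      · show Y + (k : ℝ) * L ≤ X
        linarith
      · show Y + (k : ℝ) * L ≤ d
        linarith
      · show (d : ℝ) ≤ Y + (k : ℝ) * L + L
        linarith
  have hcard : ({d : ℤ | 1 ≤ d ∧ (d : ℝ) ≤ X ∧ ∃ x y : ℤ, 1 ≤ y ∧ (y : ℝ) ≤ X ^ A ∧
      x ^ 2 ≠ d * y ^ 2 ∧ |((x ^ 2 - d * y ^ 2 : ℤ) : ℝ)| ≤ K}.ncard : ℝ) ≤
      S0.ncard + U.ncard := by
    have h1 := Set.ncard_le_ncard hsub (hS0f.union hUf)
    have h2 := Set.ncard_union_le S0 U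
    exact_mod_cast h1.trans h2
  refine hcard.trans ?_
  have hb0 : (S0.ncard : ℝ) ≤ Y := pf_card_le hY0.le S0 fun d hd => hd
  -- the number of indices
  have hcN : (((Finset.Icc (-⌊K⌋) ⌊K⌋).card : ℕ) : ℝ) ≤ 3 * K := by
    rw [Int.card_Icc]
    have h3 : (0 : ℤ) ≤ ⌊K⌋ := Int.floor_nonneg.2 (by linarith)
    have h4 : (((⌊K⌋ + 1 - -⌊K⌋).toNat : ℕ) : ℤ) = ⌊K⌋ + 1 - -⌊K⌋ :=
      Int.toNat_of_nonneg (by linarith)
    have h5 : (((⌊K⌋ + 1 - -⌊K⌋).toNat : ℕ) : ℝ) = ⌊K⌋ + 1 - -⌊K⌋ := by exact_mod_cast h4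
    have h7 := Int.floor_le K
    rw [h5]
    linarith
  have hcI : ((I + 1 : ℕ) : ℝ) ≤ (512 * A * m + 1) * X ^ (1 / (256 * (m : ℝ))) := by
    have hlX : 0 ≤ Real.log X := Real.log_nonneg hX1
    have h1 : (I : ℝ) ≤ (A : ℝ) * Real.log X / Real.log 2 := Nat.floor_le (by positivity)
    have h2 : Real.log X ≤ X ^ (1 / (256 * (m : ℝ))) / (1 / (256 * (m : ℝ))) :=
      Real.log_le_rpow_div hX0.le (by positivity)
    have h3 : X ^ (1 / (256 * (m : ℝ))) / (1 / (256 * (m : ℝ))) =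
        256 * m * X ^ (1 / (256 * (m : ℝ))) := by
      field_simp
    rw [h3] at h2
    have h4 : 1 ≤ X ^ (1 / (256 * (m : ℝ))) := Real.one_le_rpow hX1 (by positivity)
    have h5 : (A : ℝ) * Real.log X / Real.log 2 ≤ 2 * (A * Real.log X) := by
      rw [div_le_iff₀ hlog2]
      have h6 : (1 : ℝ) / 2 ≤ Real.log 2 := by linarith [Real.log_two_gt_d9]
      have h7 : 0 ≤ (A : ℝ) * Real.log X := by positivity
      nlinarith
    push_cast
    have h8 : (A : ℝ) * Real.log X ≤ A * (256 * m * X ^ (1 / (256 * (m : ℝ)))) :=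
      mul_le_mul_of_nonneg_left h2 (Nat.cast_nonneg _)
    calc (I : ℝ) + 1 ≤ 2 * (A * (256 * m * X ^ (1 / (256 * (m : ℝ))))) +
          X ^ (1 / (256 * (m : ℝ))) := by linarith
      _ = (512 * A * m + 1) * X ^ (1 / (256 * (m : ℝ))) := by ring
  have hcJ : ((J + 1 : ℕ) : ℝ) ≤ 2 * (X / L) := by
    have h1 : (J : ℝ) ≤ (X - Y) / L := Nat.floor_le (div_nonneg (by linarith) hL0.le)
    have h2 : (X - Y) / L ≤ X / L := div_le_div_of_nonneg_right (by linarith) hL0.le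
    have h3 : 1 ≤ X / L := by
      rw [le_div_iff₀ hL0]
      linarith
    push_cast
    linarith
  have hidxc : (idx.card : ℝ) ≤
      (3 * K) * (((512 * A * m + 1) * X ^ (1 / (256 * (m : ℝ)))) * (2 * (X / L))) := by
    rw [hidx, Finset.card_product, Finset.card_product, Finset.card_range, Finset.card_range]
    rw [Nat.cast_mul, Nat.cast_mul]
    have h256 : 0 ≤ (512 * (A : ℝ) * m + 1) * X ^ (1 / (256 * (m : ℝ))) := by positivity
    exact mul_le_mul hcN (mul_le_mul hcI hcJ (Nat.cast_nonneg _) h256)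
      (mul_nonneg (Nat.cast_nonneg _) (Nat.cast_nonneg _)) (by positivity)
  have hpow : K * X ^ (1 / (256 * (m : ℝ))) * (X / L) *
      X ^ (1 / (16 * (m : ℝ)) + 1 / (128 * m)) ≤ Y := by
    have e1 : L = X ^ ((1 - 1 / (32 * (m : ℝ))) * (1 / (8 * (m : ℝ)))) := by
      rw [hL, hY, ← Real.rpow_mul hX0.le]
    have e2 : X / L = X ^ (1 - (1 - 1 / (32 * (m : ℝ))) * (1 / (8 * (m : ℝ)))) := by
      rw [e1, Real.rpow_sub hX0, Real.rpow_one]
    rw [e2, hK, ← Real.rpow_add hX0, ← Real.rpow_add hX0, ← Real.rpow_add hX0, hY]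
    apply Real.rpow_le_rpow_of_exponent_le hX1
    have e3 : 1 - 1 / (32 * (m : ℝ)) - (1 / (64 * (m : ℝ)) + 1 / (256 * (m : ℝ)) +
        (1 - (1 - 1 / (32 * (m : ℝ))) * (1 / (8 * (m : ℝ)))) +
        (1 / (16 * (m : ℝ)) + 1 / (128 * m))) = (m - 1) / (256 * (m : ℝ) ^ 2) := by
      field_simp
      ring
    have e4 : 0 ≤ ((m : ℝ) - 1) / (256 * (m : ℝ) ^ 2) :=
      div_nonneg (by linarith) (by positivity)
    linarith
  have hUb : (U.ncard : ℝ) ≤ 6 * (512 * A * m + 1) * Cc * Y := by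
    refine hUc.trans ?_
    calc (idx.card : ℝ) * Bd ≤ (3 * K) * (((512 * A * m + 1) * X ^ (1 / (256 * (m : ℝ)))) *
          (2 * (X / L))) * Bd := mul_le_mul_of_nonneg_right hidxc hBd0
      _ = 6 * (512 * A * m + 1) * Cc * (K * X ^ (1 / (256 * (m : ℝ))) * (X / L) *
          X ^ (1 / (16 * (m : ℝ)) + 1 / (128 * m))) := by
        rw [hBd]
        ring
      _ ≤ 6 * (512 * A * m + 1) * Cc * Y := mul_le_mul_of_nonneg_left hpow (by positivity)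
  calc (S0.ncard : ℝ) + U.ncard ≤ Y + 6 * (512 * A * m + 1) * Cc * Y := add_le_add hb0 hUb
    _ = (1 + 6 * (512 * A * m + 1) * Cc) * Y := by ring

/-- PFIN -/
theorem pfin (hPI : StmtPI) : StmtPFIN := by
  intro A hA
  obtain ⟨D₀, Cc, hD₀, hCc, hPI⟩ := hPI A hA (2 * (4 * A + 1) ^ 2) rfl
  have hm : 1 ≤ 2 * (4 * A + 1) ^ 2 := by
    have : 0 < (4 * A + 1) ^ 2 := by positivity
    omega
  set m : ℕ := 2 * (4 * A + 1) ^ 2 with hmdef
  have hmR : (m : ℝ) = 2 * (4 * (A : ℝ) + 1) ^ 2 := by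
    rw [hmdef]
    push_cast
    ring
  refine ⟨D₀ ^ 2 + (1 + 6 * (512 * A * m + 1) * Cc), fun X hX => ?_⟩
  have hX0 : 0 < X := by linarith
  have e1 : 128 * (4 * (A : ℝ) + 1) ^ 2 = 64 * (m : ℝ) := by rw [hmR]; ring
  have e2 : 64 * (4 * (A : ℝ) + 1) ^ 2 = 32 * (m : ℝ) := by rw [hmR]; ring
  rw [e1, e2]
  have hm1 : (1 : ℝ) ≤ m := by exact_mod_cast hm
  have h32 : 1 / (32 * (m : ℝ)) ≤ 1 := by
    rw [div_le_one (by positivity)]
    linarith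
  have hY1 : 1 ≤ X ^ (1 - 1 / (32 * (m : ℝ))) := Real.one_le_rpow hX (by linarith)
  have hM0 : 0 ≤ (1 + 6 * (512 * A * m + 1) * Cc) := by positivity
  by_cases hc : D₀ ^ 2 ≤ X
  · have h1 := pf_core A m hm D₀ Cc hD₀ hCc hPI X hc
    refine h1.trans ?_
    have h2 : 0 ≤ D₀ ^ 2 * X ^ (1 - 1 / (32 * (m : ℝ))) := by positivity
    rw [add_mul]
    linarith
  · push Not at hc
    have h1 := pf_card_le hX0.le {d : ℤ | 1 ≤ d ∧ (d : ℝ) ≤ X ∧ ∃ x y : ℤ, 1 ≤ y ∧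
      (y : ℝ) ≤ X ^ A ∧ x ^ 2 ≠ d * y ^ 2 ∧
      |((x ^ 2 - d * y ^ 2 : ℤ) : ℝ)| ≤ X ^ (1 / (64 * (m : ℝ)))} fun d hd => ⟨hd.1, hd.2.1⟩
    refine h1.trans ?_
    have h3 : D₀ ^ 2 * 1 ≤ D₀ ^ 2 * X ^ (1 - 1 / (32 * (m : ℝ))) :=
      mul_le_mul_of_nonneg_left hY1 (by positivity)
    have h4 : 0 ≤ (1 + 6 * (512 * A * m + 1) * Cc) * X ^ (1 - 1 / (32 * (m : ℝ))) :=
      mul_nonneg hM0 (by positivity)
    rw [add_mul]
    linarith

end Pool.Agent.Q164.PL
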