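import Pool.Agent.W223.PL.Stms

set_option autoImplicit false

/-!
# PI: an interval
-/

namespace Pool.Agent.Q164.PL

open Polynomial Pool.Agent.W223.HZ Pool.Agent.W223.PL

lemma pi_deg (A B : ℤ[X]) (N d₀ : ℤ) (m : ℕ) (hA : A.natDegree < m) (hB : B.natDegree < m) :
    (C N * (B ^ 2 - (C d₀ + X) * A ^ 2)).natDegree ≤ 2 * m := by
  have e1 : (B ^ 2).natDegree ≤ 2 * m := natDegree_pow_le.trans (by omega)
  have e3 : (C d₀ + X : ℤ[X]).natDegree ≤ 1 := by
    refine (natDegree_add_le _ _).trans ?_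
    simp
  have e4 : (A ^ 2).natDegree ≤ 2 * (m - 1) := natDegree_pow_le.trans (by omega)
  have e2 : ((C d₀ + X) * A ^ 2).natDegree ≤ 2 * m := natDegree_mul_le.trans (by omega)
  refine (natDegree_C_mul_le _ _).trans ((natDegree_sub_le _ _).trans ?_)
  exact max_le e1 e2

/-- the common factor `g` -/
lemma pi_g (A B U W : ℤ[X]) (N R d₀ τ x y : ℤ) (hy : y ≠ 0) (hxy : IsCoprime x y)
    (hR : R ≠ 0) (hbez : U * A + W * B = C R) (h0 : x * A.eval τ + y * B.eval τ = 0)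
    (h1 : x ^ 2 - (d₀ + τ) * y ^ 2 = N) :
    ∃ g : ℤ, g ∣ R ∧ g ≠ 0 ∧ A.eval τ = y * g ∧
      (N * g) ^ 2 = (C N * (B ^ 2 - (C d₀ + X) * A ^ 2)).eval τ := by
  have hdvd : y ∣ x * A.eval τ := ⟨-B.eval τ, by linear_combination h0⟩
  obtain ⟨g, hg⟩ := hxy.symm.dvd_of_dvd_mul_left hdvd
  have hB : B.eval τ = -(x * g) := by
    have h5 : y * (B.eval τ + x * g) = 0 := by
      rw [hg] at h0
      linear_combination h0
    rcases mul_eq_zero.1 h5 with h6 | h6
    · exact absurd h6 hy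
    · linarith
  have hRg : g ∣ R := by
    have h2 : (U * A + W * B).eval τ = R := by rw [hbez, eval_C]
    rw [eval_add, eval_mul, eval_mul, hg, hB] at h2
    exact ⟨U.eval τ * y - W.eval τ * x, by linear_combination -h2⟩
  refine ⟨g, hRg, ?_, hg, ?_⟩
  · rintro rfl
    exact hR (zero_dvd_iff.1 hRg)
  · simp only [eval_mul, eval_sub, eval_add, eval_pow, eval_C, eval_X, hg, hB]
    linear_combination (-(N * g ^ 2)) * h1

/-- the logarithmic factors -/
lemma pi_log (D : ℝ) (m c : ℕ) (hm : 1 ≤ m) (hc : 1 ≤ c) (hD : 3 ≤ D) :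
    200000 * √(D ^ (1 / (8 * (m : ℝ)))) * (c * Real.log D) ^ 2 *
      Real.log (120 * √(D ^ (1 / (8 * (m : ℝ)))) * (c * Real.log D)) ≤
    1400000 * (c : ℝ) ^ 3 * (384 * m) ^ 3 * D ^ (1 / (16 * (m : ℝ)) + 1 / (128 * m)) := by
  have hD0 : 0 < D := by linarith
  have hmR : (1 : ℝ) ≤ m := by exact_mod_cast hm
  have hm0 : (0 : ℝ) < m := by linarith
  have hcR : (1 : ℝ) ≤ c := by exact_mod_cast hc
  have hl1 : 1 ≤ Real.log D := by
    rw [Real.le_log_iff_exp_le hD0]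
    linarith [Real.exp_one_lt_d9]
  have hsq : √(D ^ (1 / (8 * (m : ℝ)))) = D ^ (1 / (16 * (m : ℝ))) := by
    rw [Real.sqrt_eq_rpow, ← Real.rpow_mul hD0.le]
    congr 1
    field_simp
    norm_num
  rw [hsq]
  set l := Real.log D with hl
  set Λ := (c : ℝ) * l with hΛ
  have hlΛ : l ≤ Λ := by nlinarith
  have hΛ1 : 1 ≤ Λ := hl1.trans hlΛ
  have hlog : Real.log (120 * D ^ (1 / (16 * (m : ℝ))) * Λ) ≤ 7 * Λ := by
    have hp : 0 < D ^ (1 / (16 * (m : ℝ))) := Real.rpow_pos_of_pos hD0 _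
    rw [Real.log_mul (by positivity) (by linarith), Real.log_mul (by norm_num) hp.ne',
      Real.log_rpow hD0]
    have h1 : Real.log 120 ≤ 5 := by
      rw [Real.log_le_iff_le_exp (by norm_num)]
      have h15 : (2.7182818283 : ℝ) < Real.exp 1 := Real.exp_one_gt_d9
      have h16 : Real.exp 5 = Real.exp 1 ^ 5 := by
        rw [← Real.exp_nat_mul]
        norm_num
      rw [h16]
      have h17 : (2.7 : ℝ) ^ 5 ≤ Real.exp 1 ^ 5 := by
        gcongr
        linarith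
      refine le_trans ?_ h17
      norm_num
    have h2 : 1 / (16 * (m : ℝ)) * l ≤ l := by
      have h3 : 1 / (16 * (m : ℝ)) ≤ 1 := by
        rw [div_le_one (by positivity)]
        linarith
      nlinarith
    have h4 : Real.log Λ ≤ Λ - 1 := Real.log_le_sub_one_of_pos (by linarith)
    rw [← hl]
    linarith
  have hle : l ≤ 384 * m * D ^ (1 / (384 * (m : ℝ))) := by
    have h2 : Real.log D ≤ D ^ (1 / (384 * (m : ℝ))) / (1 / (384 * (m : ℝ))) :=
      Real.log_le_rpow_div hD0.le (by positivity)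
    have h3 : D ^ (1 / (384 * (m : ℝ))) / (1 / (384 * (m : ℝ))) =
        384 * m * D ^ (1 / (384 * (m : ℝ))) := by
      field_simp
    rw [h3] at h2
    exact h2
  have hl3 : l ^ 3 ≤ (384 * m) ^ 3 * D ^ (1 / (128 * (m : ℝ))) := by
    have h1 : l ^ 3 ≤ (384 * m * D ^ (1 / (384 * (m : ℝ)))) ^ 3 :=
      pow_le_pow_left₀ (by linarith) hle 3
    refine h1.trans (le_of_eq ?_)
    rw [mul_pow (384 * (m : ℝ))]
    congr 1
    rw [← Real.rpow_natCast, ← Real.rpow_mul hD0.le]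
    congr 1
    push_cast
    field_simp
    norm_num
  have hp : 0 ≤ D ^ (1 / (16 * (m : ℝ))) := Real.rpow_nonneg hD0.le _
  calc 200000 * D ^ (1 / (16 * (m : ℝ))) * Λ ^ 2 *
        Real.log (120 * D ^ (1 / (16 * (m : ℝ))) * Λ)
      ≤ 200000 * D ^ (1 / (16 * (m : ℝ))) * Λ ^ 2 * (7 * Λ) :=
        mul_le_mul_of_nonneg_left hlog (by positivity)
    _ = 1400000 * (c : ℝ) ^ 3 * D ^ (1 / (16 * (m : ℝ))) * l ^ 3 := by
        rw [hΛ]
        ring
    _ ≤ 1400000 * (c : ℝ) ^ 3 * D ^ (1 / (16 * (m : ℝ))) *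
        ((384 * m) ^ 3 * D ^ (1 / (128 * (m : ℝ)))) :=
        mul_le_mul_of_nonneg_left hl3 (by positivity)
    _ = 1400000 * (c : ℝ) ^ 3 * (384 * m) ^ 3 * D ^ (1 / (16 * (m : ℝ)) + 1 / (128 * m)) := by
        rw [Real.rpow_add hD0]
        ring

set_option maxHeartbeats 2000000 in
/-- PI -/
theorem pi1 (hPV : StmtPV) (hMIN : StmtMIN) (hBEZ : StmtBEZ) (hDIV : StmtDIV) (hCUQ : StmtCUQ)
    (hSQR : StmtSQR) : StmtPI := by
  classical
  intro A hA m hm
  obtain ⟨D₁, hD₁, hPV⟩ := hPV A hA m hm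
  have hm1 : 1 ≤ m := by
    rw [hm]
    have : 0 < (4 * A + 1) ^ 2 := by positivity
    omega
  have hmR : (1 : ℝ) ≤ m := by exact_mod_cast hm1
  have hm0 : (0 : ℝ) < m := by linarith
  set c : ℕ := (2 * A + 2) * (2 * m) * (2 * m + 2) + 2 with hc
  have hc2m : 2 * m ≤ c := by
    rw [hc]
    have h1 : 1 * (2 * m) * 1 ≤ (2 * A + 2) * (2 * m) * (2 * m + 2) := by
      gcongr <;> omega
    omega
  have hc1 : 1 ≤ c := by omega
  have hcR : (1 : ℝ) ≤ c := by exact_mod_cast hc1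
  set B : ℝ := (2 * m + 2) * (2 * m * 3) ^ (2 * m) with hB
  have hB1 : 1 ≤ B := by
    rw [hB]
    have h1 : (1 : ℝ) ≤ (2 * m * 3) ^ (2 * m) := one_le_pow₀ (by linarith)
    nlinarith
  obtain ⟨C₁, hC₁, hDIV⟩ := hDIV (1 / (16 * m * c)) (by positivity)
  refine ⟨max D₁ (max 3 (B ^ (2 * m + 2))),
    m ^ 2 + 1400000 * (c : ℝ) ^ 3 * (384 * m) ^ 3 + 4 * m * C₁, hD₁.trans (le_max_left _ _),
    ?_, ?_⟩
  · have h1 : (1 : ℝ) ≤ (m : ℝ) ^ 2 := one_le_pow₀ hmR
    have h2 : (0 : ℝ) ≤ 1400000 * (c : ℝ) ^ 3 * (384 * m) ^ 3 := by positivity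
    have h3 : (0 : ℝ) ≤ 4 * m * C₁ := by positivity
    linarith
  intro D V N 𝒟 hD hV1 hVD hN0 hN hd hdd hxy
  have hDD₁ : D₁ ≤ D := (le_max_left _ _).trans hD
  have hD3 : 3 ≤ D := ((le_max_left _ _).trans (le_max_right _ _)).trans hD
  have hDB : B ^ (2 * m + 2) ≤ D := ((le_max_right _ _).trans (le_max_right _ _)).trans hD
  have hD0 : 0 < D := by linarith
  have hD1 : 1 ≤ D := by linarith
  set E := D ^ (1 / (16 * (m : ℝ)) + 1 / (128 * m)) with hE
  have hE1 : 1 ≤ E := Real.one_le_rpow hD1 (by positivity)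
  rcases Finset.eq_empty_or_nonempty 𝒟 with rfl | ⟨d₀, hd₀⟩
  · simp only [Finset.card_empty, Nat.cast_zero]
    positivity
  -- the solutions
  have hex : ∀ d : ℤ, ∃ x y : ℤ, d ∈ 𝒟 → 0 ≤ x ∧ V ≤ y ∧ (y : ℝ) < 2 * V ∧ IsCoprime x y ∧
      x ^ 2 - d * y ^ 2 = N := by
    intro d
    by_cases h : d ∈ 𝒟
    · obtain ⟨x, y, hxy⟩ := hxy d h
      exact ⟨x, y, fun _ => hxy⟩
    · exact ⟨0, 0, fun h' => absurd h' h⟩
  choose x y hxy using hex
  set T : Finset ℤ := 𝒟.image fun d => d - d₀ with hT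
  have hTcard : T.card = 𝒟.card :=
    Finset.card_image_of_injective _ (fun a b h => by simpa using h)
  have hTm : ∀ τ ∈ T, d₀ + τ ∈ 𝒟 := by
    intro τ hτ
    obtain ⟨d, hd, rfl⟩ := Finset.mem_image.1 hτ
    rw [show d₀ + (d - d₀) = d by ring]
    exact hd
  set L := D ^ (1 / (8 * (m : ℝ))) with hL
  have hL1 : 1 ≤ L := Real.one_le_rpow hD1 (by positivity)
  have hLm : L ^ m ≤ D := by
    rw [hL, ← Real.rpow_natCast, ← Real.rpow_mul hD0.le]
    calc D ^ (1 / (8 * (m : ℝ)) * (m : ℕ)) ≤ D ^ (1 : ℝ) := by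
          apply Real.rpow_le_rpow_of_exponent_le hD1
          rw [div_mul_eq_mul_div, one_mul, div_le_one (by positivity)]
          linarith
      _ = D := Real.rpow_one D
  have hTL : ∀ τ ∈ T, |(τ : ℝ)| ≤ L := by
    intro τ hτ
    have h1 := hdd _ (hTm τ hτ) d₀ hd₀
    push_cast at h1
    rwa [add_sub_cancel_left] at h1
  have hD18 : D ^ ((1 : ℝ) / 8) ≤ D := by
    calc D ^ ((1 : ℝ) / 8) ≤ D ^ (1 : ℝ) :=
          Real.rpow_le_rpow_of_exponent_le hD1 (by norm_num)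
      _ = D := Real.rpow_one D
  have hND : |(N : ℝ)| ≤ D := hN.trans hD18
  -- the sizes
  set H : ℝ := 3 * D ^ (2 * A + 2) with hH
  have hH1 : 1 ≤ H := by
    have : 1 ≤ D ^ (2 * A + 2) := one_le_pow₀ hD1
    linarith
  have hV0 : 0 < V := by linarith
  have hDA : D ^ (2 * A + 2) = D ^ (2 * A) * D * D := by ring
  have hsize : ∀ τ ∈ T, ∀ j < m, |((x (d₀ + τ) * τ ^ j : ℤ) : ℝ)| ≤ H ∧
      |((y (d₀ + τ) * τ ^ j : ℤ) : ℝ)| ≤ H := by
    intro τ hτ j hj
    obtain ⟨h1, h2, h3, -, h5⟩ := hxy _ (hTm τ hτ)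
    have h6 := (hd _ (hTm τ hτ)).2
    have hτj : |(τ : ℝ)| ^ j ≤ D :=
      ((pow_le_pow_left₀ (abs_nonneg _) (hTL τ hτ) j).trans
        (pow_le_pow_right₀ hL1 hj.le)).trans hLm
    have hy0 : (0 : ℝ) ≤ (y (d₀ + τ) : ℝ) := by linarith
    have hx0 : (0 : ℝ) ≤ (x (d₀ + τ) : ℝ) := by exact_mod_cast h1
    have hyb : (y (d₀ + τ) : ℝ) ≤ 3 * (D ^ (2 * A) * D) := by
      have h7 : D ^ (2 * A) ≤ D ^ (2 * A) * D := le_mul_of_one_le_right (by positivity) hD1
      linarith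
    have hxb : (x (d₀ + τ) : ℝ) ≤ 3 * (D ^ (2 * A) * D) := by
      have h7 : (x (d₀ + τ) : ℝ) ^ 2 = N + ((d₀ + τ : ℤ) : ℝ) * (y (d₀ + τ) : ℝ) ^ 2 := by
        have h8 : ((x (d₀ + τ) ^ 2 - (d₀ + τ) * y (d₀ + τ) ^ 2 : ℤ) : ℝ) = (N : ℝ) := by
          exact_mod_cast h5
        push_cast at h8 ⊢
        linarith
      have h8 : (x (d₀ + τ) : ℝ) ≤ 3 * (V * D) := by
        have h10 : (x (d₀ + τ) : ℝ) ^ 2 ≤ (3 * (V * D)) ^ 2 := by
          rw [h7]
          have h11 : (N : ℝ) ≤ D := (le_abs_self _).trans hND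
          have h12 : (y (d₀ + τ) : ℝ) ^ 2 ≤ (2 * V) ^ 2 := pow_le_pow_left₀ hy0 h3.le 2
          have h13 : ((d₀ + τ : ℤ) : ℝ) * (y (d₀ + τ) : ℝ) ^ 2 ≤ (2 * D) * (2 * V) ^ 2 :=
            mul_le_mul h6 h12 (by positivity) (by positivity)
          have h14 : 1 ≤ V ^ 2 := one_le_pow₀ hV1
          have h15 : D ≤ D * V ^ 2 := le_mul_of_one_le_right hD0.le h14
          have h16 : D * V ^ 2 ≤ D ^ 2 * V ^ 2 := by
            apply mul_le_mul_of_nonneg_right _ (by positivity)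
            nlinarith
          nlinarith
        exact (sq_le_sq₀ hx0 (by positivity)).1 h10
      have h9 : V * D ≤ D ^ (2 * A) * D := mul_le_mul_of_nonneg_right hVD hD0.le
      linarith
    have hHe : H = 3 * (D ^ (2 * A) * D) * D := by rw [hH, hDA]; ring
    constructor
    · rw [Int.cast_mul, Int.cast_pow, abs_mul, abs_pow, abs_of_nonneg hx0, hHe]
      exact mul_le_mul hxb hτj (by positivity) (by positivity)
    · rw [Int.cast_mul, Int.cast_pow, abs_mul, abs_pow, abs_of_nonneg hy0, hHe]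
      exact mul_le_mul hyb hτj (by positivity) (by positivity)
  obtain ⟨T', hT'T, hT'c, P, Q, hPQ, hPd, hQd, hPc, hQc, hcop, hrel⟩ :=
    hMIN m hm1 T (fun τ => x (d₀ + τ)) (fun τ => y (d₀ + τ)) H hH1 hsize (by
      intro f hf
      have h1 := hPV D V d₀ (fun i => x (d₀ + f i)) (fun i => y (d₀ + f i))
        (fun i => d₀ + f i) hDD₁ hV1 hVD (hd d₀ hd₀).1 (hd d₀ hd₀).2
        (fun i => hd _ (hTm _ (hf i))) (fun i => hdd _ (hTm _ (hf i)) d₀ hd₀)
        (fun i => ⟨(hxy _ (hTm _ (hf i))).2.1, (hxy _ (hTm _ (hf i))).2.2.1⟩)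
        (fun i => (hxy _ (hTm _ (hf i))).1)
        (fun i => by
          have h2 := (hxy _ (hTm _ (hf i))).2.2.2.2
          show |((x (d₀ + f i) ^ 2 - (d₀ + f i) * y (d₀ + f i) ^ 2 : ℤ) : ℝ)| ≤ _
          rw [h2]
          exact hN)
      have h3 : (fun i => (fun i => d₀ + f i) i - d₀) = f := by
        funext i
        show d₀ + f i - d₀ = f i
        ring
      rw [h3] at h1
      exact h1)
  set H₂ : ℝ := (2 * m * H) ^ (2 * m) with hH₂
  have hH₂1 : 1 ≤ H₂ := one_le_pow₀ (by nlinarith)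
  obtain ⟨U, W, R, hR0, hbez, hRb⟩ := hBEZ m P Q H₂ hH₂1 hPd.le hQd.le hPc hQc hcop
  have hRD : |(R : ℝ)| * D ≤ D ^ c := by
    have h1 : ((2 * (m : ℝ) + 2) * H₂) ^ (2 * m + 2) =
        B ^ (2 * m + 2) * D ^ ((2 * A + 2) * (2 * m) * (2 * m + 2)) := by
      rw [hH₂, hH, hB]
      rw [show 2 * (m : ℝ) * (3 * D ^ (2 * A + 2)) = (2 * m * 3) * D ^ (2 * A + 2) by ring]
      rw [mul_pow (2 * (m : ℝ) * 3), ← mul_assoc, mul_pow _ ((D ^ (2 * A + 2)) ^ (2 * m)),
        ← pow_mul, ← pow_mul]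
      congr 2
      ring
    rw [h1] at hRb
    calc |(R : ℝ)| * D ≤ (B ^ (2 * m + 2) * D ^ ((2 * A + 2) * (2 * m) * (2 * m + 2))) * D :=
          mul_le_mul_of_nonneg_right hRb hD0.le
      _ ≤ (D * D ^ ((2 * A + 2) * (2 * m) * (2 * m + 2))) * D := by gcongr
      _ = D ^ c := by rw [hc]; ring
  have hR1 : 1 ≤ |(R : ℝ)| := by
    have : (1 : ℤ) ≤ |R| := Int.one_le_abs hR0
    exact_mod_cast this
  have hRDc : |(R : ℝ)| ≤ D ^ c := by
    refine le_trans ?_ hRD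
    exact le_mul_of_one_le_right (by linarith) hD1
  -- the functions g
  have hgex : ∀ τ : ℤ, ∃ g : ℤ, τ ∈ T' → g ∣ R ∧ g ≠ 0 ∧ P.eval τ = y (d₀ + τ) * g ∧
      (N * g) ^ 2 = (C N * (Q ^ 2 - (C d₀ + X) * P ^ 2)).eval τ := by
    intro τ
    by_cases hτ : τ ∈ T'
    · obtain ⟨h1, h2, h3, h4, h5⟩ := hxy _ (hTm τ (hT'T hτ))
      have hy0 : y (d₀ + τ) ≠ 0 := by
        intro h0
        rw [h0] at h2
        push_cast at h2
        linarith
      obtain ⟨g, hg⟩ := pi_g P Q U W N R d₀ τ (x (d₀ + τ)) (y (d₀ + τ)) hy0 h4 hR0 hbez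
        (hrel τ hτ) h5
      exact ⟨g, fun _ => hg⟩
    · exact ⟨0, fun h => absurd h hτ⟩
  choose g hg using hgex
  have hmain : (T'.card : ℝ) ≤ (1400000 * (c : ℝ) ^ 3 * (384 * m) ^ 3 + 4 * m * C₁) * E := by
    have hpos1 : 0 ≤ 1400000 * (c : ℝ) ^ 3 * (384 * m) ^ 3 * E := by positivity
    have hpos2 : 0 ≤ 4 * m * C₁ * E := by positivity
    by_cases hns : NonSq (C N * (Q ^ 2 - (C d₀ + X) * P ^ 2))
    · have hl1 : 1 ≤ Real.log D := by
        rw [Real.le_log_iff_exp_le hD0]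
        linarith [Real.exp_one_lt_d9]
      have hcl : (c : ℝ) ≤ c * Real.log D := le_mul_of_one_le_right (by linarith) hl1
      have h2m : ((2 * m : ℕ) : ℝ) ≤ c := by exact_mod_cast hc2m
      have h1 := hCUQ _ (2 * m) (pi_deg P Q N d₀ m hPd hQd) hns L (c * Real.log D) hL1
        (hcR.trans hcl) (h2m.trans hcl) T' (fun τ hτ => hTL τ (hT'T hτ)) (by
          intro τ hτ
          obtain ⟨h2, h3, h4, h5⟩ := hg τ hτ
          refine ⟨N * g τ, h5, ?_⟩
          have h6 : Real.exp (c * Real.log D) = D ^ c := by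
            rw [Real.exp_nat_mul, Real.exp_log hD0]
          rw [h6]
          have h7 : |(g τ : ℝ)| ≤ |(R : ℝ)| := by
            have h8 : |g τ| ≤ |R| := by
              have h9 := Int.natAbs_le_of_dvd_ne_zero h2 hR0
              rw [Int.abs_eq_natAbs, Int.abs_eq_natAbs]
              exact_mod_cast h9
            exact_mod_cast h8
          push_cast
          rw [abs_mul]
          calc |(N : ℝ)| * |(g τ : ℝ)| ≤ D * |(R : ℝ)| :=
                mul_le_mul hND h7 (abs_nonneg _) hD0.le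
            _ = |(R : ℝ)| * D := mul_comm _ _
            _ ≤ D ^ c := hRD)
      have h2 := pi_log D m c hm1 hc1 hD3
      refine (h1.trans h2).trans ?_
      rw [add_mul]
      linarith
    · rcases Finset.eq_empty_or_nonempty T' with he | ⟨τ₀, hτ₀⟩
      · rw [he]
        simp only [Finset.card_empty, Nat.cast_zero]
        rw [add_mul]
        linarith
      have hP0 : P ≠ 0 := by
        rintro rfl
        obtain ⟨h2, h3, h4, h5⟩ := hg τ₀ hτ₀
        rw [eval_zero] at h4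
        have h6 := (hxy _ (hTm τ₀ (hT'T hτ₀))).2.1
        rcases mul_eq_zero.1 h4.symm with h7 | h7
        · rw [h7] at h6
          push_cast at h6
          linarith
        · exact h3 h7
      have h1 := hSQR m P Q N d₀ R hP0 hN0 hR0 hPd hQd hns T' g (fun τ hτ => (hg τ hτ).1)
        (fun τ hτ => (hg τ hτ).2.2.2)
      have h2 := hDIV R.natAbs (Int.natAbs_pos.2 hR0)
      have h3 : ((R.natAbs : ℕ) : ℝ) = |(R : ℝ)| := by
        rw [Nat.cast_natAbs, Int.cast_abs]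
      rw [h3] at h2
      have h4 : |(R : ℝ)| ^ (1 / (16 * (m : ℝ) * c)) ≤ E := by
        calc |(R : ℝ)| ^ (1 / (16 * (m : ℝ) * c)) ≤ (D ^ c) ^ (1 / (16 * (m : ℝ) * c)) :=
              Real.rpow_le_rpow (abs_nonneg _) hRDc (by positivity)
          _ = D ^ (1 / (16 * (m : ℝ))) := by
              rw [← Real.rpow_natCast, ← Real.rpow_mul hD0.le]
              congr 1
              field_simp
          _ ≤ E := by
              apply Real.rpow_le_rpow_of_exponent_le hD1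
              have : 0 < 1 / (128 * (m : ℝ)) := by positivity
              linarith
      have h5 : (T'.card : ℝ) ≤ 4 * m * (R.natAbs.divisors.card : ℝ) := by exact_mod_cast h1
      have h6 : 4 * m * (R.natAbs.divisors.card : ℝ) ≤ 4 * m * (C₁ * E) := by
        refine mul_le_mul_of_nonneg_left (h2.trans ?_) (by positivity)
        exact mul_le_mul_of_nonneg_left h4 (by linarith)
      rw [add_mul]
      linarith
  have htot : 𝒟.card ≤ m ^ 2 + T'.card := by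
    rw [← hTcard]
    have h1 := Finset.card_sdiff_add_card_eq_card hT'T
    omega
  have htotR : (𝒟.card : ℝ) ≤ (m : ℝ) ^ 2 + T'.card := by exact_mod_cast htot
  have hm2 : (m : ℝ) ^ 2 ≤ (m : ℝ) ^ 2 * E := le_mul_of_one_le_right (by positivity) hE1
  calc (𝒟.card : ℝ) ≤ (m : ℝ) ^ 2 * E +
        (1400000 * (c : ℝ) ^ 3 * (384 * m) ^ 3 + 4 * m * C₁) * E := by linarith
    _ = _ := by ring

end Pool.Agent.Q164.PL
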